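import Pool.Agent.H46.SK.Targets

/-!
# Module KARB of po_modules (MP_2fe131_nt): the bilinear bound for two blocks
-/

namespace Pool.Agent.H17.SKB

open SK Finset

theorem blk_mem {k r p : ℕ} (hp : p ∈ blk k r) : p.Prime ∧ r * p ^ (2 * r - 1) < k := by
  unfold blk at hp
  rw [mem_filter] at hp
  exact ⟨hp.2.1, hp.2.2.2.1⟩

/-- `r! 2^r ≤ 4^(r r')` for `2 r ≤ 4^r'`. -/
theorem fac_bound {R r r' : ℕ} (hR : 2 ≤ R) (hr : r ≤ R ^ 3) (hr' : R ^ 2 ≤ r') :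
    (r.factorial : ℝ) * 2 ^ r ≤ 4 ^ (r * r') := by
  have h1 : 2 * r ≤ 4 ^ r' := by
    have h2 : R ^ 2 ≤ 2 ^ (R ^ 2) := Nat.lt_two_pow_self.le
    calc 2 * r ≤ 2 * R ^ 3 := by omega
      _ ≤ R * R ^ 3 := Nat.mul_le_mul_right _ hR
      _ = (R ^ 2) ^ 2 := by ring
      _ ≤ (2 ^ (R ^ 2)) ^ 2 := Nat.pow_le_pow_left h2 2
      _ = 4 ^ (R ^ 2) := by
          rw [← pow_mul, mul_comm, pow_mul]
          norm_num
      _ ≤ 4 ^ r' := Nat.pow_le_pow_right (by norm_num) hr'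
  have h3 : r.factorial * 2 ^ r ≤ 4 ^ (r * r') := by
    calc r.factorial * 2 ^ r ≤ r ^ r * 2 ^ r := Nat.mul_le_mul_right _ (Nat.factorial_le_pow r)
      _ = (2 * r) ^ r := by rw [mul_pow, mul_comm]
      _ ≤ (4 ^ r') ^ r := Nat.pow_le_pow_left h1 r
      _ = 4 ^ (r * r') := by rw [← pow_mul, mul_comm]
  exact_mod_cast h3

theorem pf_KARB (hKAR : TARGET_KAR) (hMOM : TARGET_MOM) (hQB : TARGET_QB) : TARGET_KARB := by
  intro k R r₁ r₂ _ b hR hRk h1l h1u h1e h2l h2u hb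
  have hkp : k.Prime := Fact.out
  have hk0 : (0 : ℝ) < k := by exact_mod_cast hkp.pos
  set L := Real.log k with hL
  have hR1 : (1 : ℝ) ≤ R := by exact_mod_cast (by omega : 1 ≤ R)
  have hL1 : (1 : ℝ) ≤ L := (one_le_pow₀ hR1).trans hRk
  have hR4 : 4 ≤ R ^ 2 := by nlinarith
  have h14 : 4 ≤ r₁ := hR4.trans h1l
  have h24 : 4 ≤ r₂ := hR4.trans h2l
  have hcube : ∀ r : ℕ, r ≤ R ^ 3 → (r : ℝ) ^ 3 ≤ L := by
    intro r hr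
    have h3 : (r : ℝ) ≤ (R : ℝ) ^ 3 := by exact_mod_cast hr
    calc (r : ℝ) ^ 3 ≤ ((R : ℝ) ^ 3) ^ 3 := by gcongr
      _ = (R : ℝ) ^ 9 := by ring
      _ ≤ (R : ℝ) ^ 10 := pow_le_pow_right₀ hR1 (by norm_num)
      _ ≤ L := hRk
  obtain ⟨a1, a2, a3⟩ := hQB k r₁ hkp h14 (hcube r₁ h1u)
  obtain ⟨b1, b2, b3⟩ := hQB k r₂ hkp h24 (hcube r₂ h2u)
  have hm1 := hMOM k r₁ (blk k r₁) (by omega)
    (fun p hp => ⟨(blk_mem hp).1, (a1 p hp).1, (blk_mem hp).2⟩)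
  have hm2 := hMOM k r₂ (blk k r₂) (by omega)
    (fun p hp => ⟨(blk_mem hp).1, (b1 p hp).1, (blk_mem hp).2⟩)
  obtain ⟨s, hs⟩ : ∃ s, r₁ = 2 * s := ⟨r₁ / 2, by omega⟩
  have hK := hKAR k s r₂ (blk k r₁) (blk k r₂) (fun p => 1 / (p : ℝ)) (fun p => 1 / (p : ℝ))
    (fun p => ((p : ZMod k))⁻¹) (fun p => ((p : ZMod k))⁻¹) b (by omega) (by omega) hb
    (fun i _ => by positivity) (fun j _ => by positivity)
  have hX : (∑ i ∈ blk k r₁, ∑ j ∈ blk k r₂, ((1 / (i : ℝ) * (1 / (j : ℝ)) : ℝ) : ℂ) *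
      ZMod.stdAddChar (b * ((i : ZMod k))⁻¹ * ((j : ZMod k))⁻¹)) =
      ∑ p ∈ blk k r₁, ∑ q ∈ blk k r₂,
      ((1 / (p * q) : ℝ) : ℂ) * ZMod.stdAddChar (b * ((p : ZMod k) * (q : ZMod k))⁻¹) := by
    refine sum_congr rfl fun p _ => sum_congr rfl fun q _ => ?_
    rw [mul_inv, mul_assoc b, one_div_mul_one_div]
  simp only [hX] at hK
  set X := ‖∑ p ∈ blk k r₁, ∑ q ∈ blk k r₂,
      ((1 / (p * q) : ℝ) : ℂ) * ZMod.stdAddChar (b * ((p : ZMod k) * (q : ZMod k))⁻¹)‖ with hXd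
  have hX0 : 0 ≤ X := norm_nonneg _
  have e4 : 4 * s = 2 * r₁ := by omega
  have e2 : 2 * s = r₁ := hs.symm
  rw [e4, e2] at hK
  set Sg := ∑ a : ZMod k, ‖∑ i ∈ blk k r₁, ((1 / (i : ℝ) : ℝ) : ℂ) *
    ZMod.stdAddChar (a * ((i : ZMod k))⁻¹)‖ ^ (2 * r₁) with hSg
  set Sh := ∑ a : ZMod k, ‖∑ j ∈ blk k r₂, ((1 / (j : ℝ) : ℝ) : ℂ) *
    ZMod.stdAddChar (a * ((j : ZMod k))⁻¹)‖ ^ (2 * r₂) with hSh
  set S1 := ∑ p ∈ blk k r₁, (1 : ℝ) / p with hS1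
  set S2 := ∑ p ∈ blk k r₂, (1 : ℝ) / p with hS2
  have hS1n : 0 ≤ S1 := sum_nonneg fun i _ => by positivity
  have hS2n : 0 ≤ S2 := sum_nonneg fun i _ => by positivity
  have hSgn : 0 ≤ Sg := sum_nonneg fun i _ => by positivity
  have hShn : 0 ≤ Sh := sum_nonneg fun i _ => by positivity
  -- the two moments
  have g1 : Sg / k ≤ (r₁.factorial * 2 ^ r₁) * Real.exp (-(L / 2 + L / (8 * r₁))) := by
    rw [div_le_iff₀ hk0]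
    calc Sg ≤ k * (r₁.factorial : ℝ) * (∑ p ∈ blk k r₁, (1 : ℝ) / p ^ 2) ^ r₁ := hm1
      _ ≤ k * (r₁.factorial : ℝ) * (2 ^ r₁ * Real.exp (-(L / 2 + L / (8 * r₁)))) := by gcongr
      _ = _ := by ring
  have g2 : Sh ≤ k * ((r₂.factorial * 2 ^ r₂) * Real.exp (-(L / 2 + L / (8 * r₂)))) := by
    calc Sh ≤ k * (r₂.factorial : ℝ) * (∑ p ∈ blk k r₂, (1 : ℝ) / p ^ 2) ^ r₂ := hm2
      _ ≤ k * (r₂.factorial : ℝ) * (2 ^ r₂ * Real.exp (-(L / 2 + L / (8 * r₂)))) := by gcongr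
      _ = _ := by ring
  have f1 := fac_bound hR h1u h2l
  have f2 := fac_bound hR h2u h1l
  set N := 2 * r₁ * r₂ with hN
  have hN0 : N ≠ 0 := by
    rw [hN]
    positivity
  have eN : r₁ * (2 * r₂) = N := by rw [hN]; ring
  rw [eN] at hK
  have hp1 : S2 ^ ((r₁ - 1) * (2 * r₂)) * S1 ^ (r₁ * (2 * r₂ - 2)) ≤ ((1 + L) ^ 2) ^ N := by
    have hL2 : (1 : ℝ) ≤ 1 + L := by linarith
    calc S2 ^ ((r₁ - 1) * (2 * r₂)) * S1 ^ (r₁ * (2 * r₂ - 2))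
        ≤ (1 + L) ^ ((r₁ - 1) * (2 * r₂)) * (1 + L) ^ (r₁ * (2 * r₂ - 2)) := by gcongr
      _ ≤ (1 + L) ^ (r₁ * (2 * r₂)) * (1 + L) ^ (r₁ * (2 * r₂)) := by
          gcongr <;> first | exact hL2 | omega
      _ = ((1 + L) ^ 2) ^ N := by
          rw [eN, ← pow_add, ← pow_mul]
          congr 1
          ring
  have hexp : Real.exp (-(L / 2 + L / (8 * r₁))) * (k * Real.exp (-(L / 2 + L / (8 * r₂)))) ≤
      (Real.exp (-(L / (8 * (R : ℝ) ^ 9)))) ^ N := by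
    have hke : (k : ℝ) = Real.exp L := by rw [hL, Real.exp_log hk0]
    rw [hke, ← Real.exp_add, ← Real.exp_add, ← Real.exp_nat_mul]
    apply Real.exp_le_exp.mpr
    have hr1 : (0 : ℝ) < r₁ := by exact_mod_cast (by omega : 0 < r₁)
    have hr2 : (0 : ℝ) < r₂ := by exact_mod_cast (by omega : 0 < r₂)
    have hRp : (0 : ℝ) < (R : ℝ) ^ 3 := by positivity
    have u1 : (r₁ : ℝ) ≤ (R : ℝ) ^ 3 := by exact_mod_cast h1u
    have u2 : (r₂ : ℝ) ≤ (R : ℝ) ^ 3 := by exact_mod_cast h2u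
    have v1 : L / (8 * (R : ℝ) ^ 3) ≤ L / (8 * r₁) := by gcongr
    have v2 : L / (8 * (R : ℝ) ^ 3) ≤ L / (8 * r₂) := by gcongr
    have v3 : (N : ℝ) * (L / (8 * (R : ℝ) ^ 9)) ≤ 2 * (L / (8 * (R : ℝ) ^ 3)) := by
      have hNr : (N : ℝ) = 2 * r₁ * r₂ := by rw [hN]; push_cast; ring
      have v4 : (N : ℝ) ≤ 2 * (R : ℝ) ^ 3 * (R : ℝ) ^ 3 := by
        rw [hNr]
        gcongr
      calc (N : ℝ) * (L / (8 * (R : ℝ) ^ 9)) ≤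
            (2 * (R : ℝ) ^ 3 * (R : ℝ) ^ 3) * (L / (8 * (R : ℝ) ^ 9)) := by gcongr
        _ = 2 * (L / (8 * (R : ℝ) ^ 3)) := by
            field_simp
    have v5 : (N : ℝ) * -(L / (8 * (R : ℝ) ^ 9)) = -((N : ℝ) * (L / (8 * (R : ℝ) ^ 9))) := by
      ring
    rw [v5]
    linarith
  have hfac : (r₁.factorial * 2 ^ r₁ : ℝ) * (r₂.factorial * 2 ^ r₂) ≤ 4 ^ N := by
    calc (r₁.factorial * 2 ^ r₁ : ℝ) * (r₂.factorial * 2 ^ r₂)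
        ≤ 4 ^ (r₁ * r₂) * 4 ^ (r₂ * r₁) := by gcongr
      _ = 4 ^ N := by
          rw [← pow_add]
          congr 1
          rw [hN]
          ring
  have hfin : X ^ N ≤ (4 * (1 + L) ^ 2 * Real.exp (-(L / (8 * (R : ℝ) ^ 9)))) ^ N := by
    calc X ^ N ≤ S2 ^ ((r₁ - 1) * (2 * r₂)) * S1 ^ (r₁ * (2 * r₂ - 2)) * (Sg / k) * Sh := hK
      _ ≤ ((1 + L) ^ 2) ^ N * ((r₁.factorial * 2 ^ r₁) * Real.exp (-(L / 2 + L / (8 * r₁)))) *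
          (k * ((r₂.factorial * 2 ^ r₂) * Real.exp (-(L / 2 + L / (8 * r₂))))) := by
          gcongr
      _ = ((1 + L) ^ 2) ^ N * ((r₁.factorial * 2 ^ r₁ : ℝ) * (r₂.factorial * 2 ^ r₂)) *
          (Real.exp (-(L / 2 + L / (8 * r₁))) *
            (k * Real.exp (-(L / 2 + L / (8 * r₂))))) := by ring
      _ ≤ ((1 + L) ^ 2) ^ N * 4 ^ N * (Real.exp (-(L / (8 * (R : ℝ) ^ 9)))) ^ N := by gcongr
      _ = _ := by
          rw [mul_pow, mul_pow]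
          ring
  exact (pow_le_pow_iff_left₀ hX0 (by positivity) hN0).mp hfin

end Pool.Agent.H17.SKB
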